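import Pool.Agent.AG.Main

/-!
# Blockages and the orientable genus of embedded graphs in polynomial time

`S` is a map (cellular embedding) of the connected graph `G`, `S.eg` the Euler genus of its surface, `faceDefect S` the
smallest number of faces having a corner at which the orientations of the edge bands disagree (0 if `S` is orientable):
the smallest number of faces met by a system of closed curves, crossing `G` at vertices only, which blocks the
non-orientability of the surface (the face-width, in the projective plane).
-/

set_option autoImplicit false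

namespace Pool.Agent.Results.MP_6d4ab8_lc.BlockageInPolyTime

open Pool.Agent.Helper35.OG Pool.Agent.Helper58.OG Pool.Agent.EXG N68a2faeb

/-- The code of a flag: the two ends of its dart and its side. -/
def code {n : ℕ} {G : SimpleGraph (Fin n)} (p : Flag G) : ℕ × (ℕ × Bool) := ((p.1.fst : ℕ), ((p.1.snd : ℕ), p.2))

/-- `l` describes the map `S`: its members are the pairs of the codes of a flag and of the other flag of its corner. -/
def Describes {n : ℕ} {G : SimpleGraph (Fin n)} (S : GMap G) (l : List ((ℕ × (ℕ × Bool)) × (ℕ × (ℕ × Bool)))) : Prop :=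
  ∀ x, x ∈ l ↔ ∃ p : Flag G, x = (code p, code (S.nxt p))

/-- For every `k` there are polynomial time functions `g`, `f` such that, for all connected graphs given with an embedding
of Euler genus at most `k`, `g` computes `faceDefect` and `f` the orientable genus with an error of at most `3 * eg / 2`
(from above), and without error under the gap condition of `ExactGenus`. -/
theorem result (k : ℕ) : ∃ f g : List ((ℕ × (ℕ × Bool)) × (ℕ × (ℕ × Bool))) → ℕ, IsPolyTime f ∧ IsPolyTime g ∧
    ∀ (n : ℕ) (G : SimpleGraph (Fin n)), G.Connected → 2 ≤ n → ∀ S : GMap G, S.eg ≤ k → ∀ l, Describes S l →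
      g l = faceDefect S ∧
      orientableGenus G ≤ f l ∧ 2 * (f l : ℤ) ≤ 2 * (orientableGenus G : ℤ) + 3 * S.eg ∧
      (¬ S.Orientable → 3 ≤ faceDefect S → (S.eg = 1 ∨ SplitWidth S ((faceDefect S : ℤ) + 4 * S.eg + 9)) →
        f l = orientableGenus G) ∧
      ∃ M : GMap G, M.Orientable ∧ M.eg = 2 * (orientableGenus G : ℤ) := by
  obtain ⟨f, g, hf, hg, h⟩ := Pool.Agent.AG.main k
  exact ⟨f, g, hf, hg, fun n G hG hn S hk l hl => h n G hG hn S hk l hl⟩

end Pool.Agent.Results.MP_6d4ab8_lc.BlockageInPolyTime
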