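import Pool.Agent.EAD.Fin

/-!
# The orientable genus of graphs of all degrees with a polyhedral wide embedding, in polynomial time

Maps (cellular embeddings) of a connected graph `G` are described by flags (`Pool/Agent/Helper35/OG/Map.lean`); polyhedral
maps (`Poly`) and wide maps (`WideV`) are defined in `Pool/Agent/EAD/Map.lean`.
-/

set_option autoImplicit false

namespace Pool.Agent.Helper59.Kept.ExactAllDegrees

open Pool.Agent.Helper35.OG Pool.Agent.EAD N68a2faeb

/-- The code of a flag: the two ends of its dart and its side. -/
def code {n : ℕ} {G : SimpleGraph (Fin n)} (p : Flag G) : ℕ × (ℕ × Bool) := ((p.1.fst : ℕ), ((p.1.snd : ℕ), p.2))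

/-- `l` describes the map `S`: its members are the pairs of the codes of a flag and of the other flag of its corner. -/
def Describes {n : ℕ} {G : SimpleGraph (Fin n)} (S : GMap G) (l : List ((ℕ × (ℕ × Bool)) × (ℕ × (ℕ × Bool)))) : Prop :=
  ∀ x, x ∈ l ↔ ∃ p : Flag G, x = (code p, code (S.nxt p))

/-- For every `k` one polynomial time function computes the orientable genus of every connected graph which is given with a
polyhedral wide embedding of Euler genus at most `k` in some closed surface. There is no condition on the degrees. -/
theorem result (k : ℕ) : ∃ f : List ((ℕ × (ℕ × Bool)) × (ℕ × (ℕ × Bool))) → ℕ, IsPolyTime f ∧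
    ∀ (n : ℕ) (G : SimpleGraph (Fin n)), G.Connected → 2 ≤ n → ∀ S : GMap G, S.eg ≤ k → Poly S → WideV S →
      ∀ l, Describes S l → f l = orientableGenus G ∧
        ∃ M : GMap G, M.Orientable ∧ M.eg = 2 * (orientableGenus G : ℤ) := by
  obtain ⟨f, hf, h⟩ := Pool.Agent.EAD.final k
  exact ⟨f, hf, fun n G hG hn S hk hP hW l hl => h n G hG hn S hk hP hW l hl⟩

end Pool.Agent.Helper59.Kept.ExactAllDegrees
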