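import Pool.Agent.BEO.Main
import Pool.Agent.BEO.Nat
import Pool.Agent.Helper35.OG.Parity

/-!
# The exact orientable genus of subcubic graphs of large face-width in a fixed surface

`S` is a map (cellular embedding) of the connected graph `G` of maximum degree at most three, `S.eg` the Euler genus of
its surface.
-/

set_option autoImplicit false

namespace Pool.Agent.Results.MP_6d4ab8_lc.ExactSubcubic

open Pool.Agent.Helper35.OG N68a2faeb

/-- The code of a flag: the two ends of its dart and its side. -/
def code {n : ℕ} {G : SimpleGraph (Fin n)} (p : Flag G) : ℕ × (ℕ × Bool) := ((p.1.fst : ℕ), ((p.1.snd : ℕ), p.2))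

/-- `l` describes the map `S`: its members are the pairs of the codes of a flag and of the other flag of its corner. -/
def Describes {n : ℕ} {G : SimpleGraph (Fin n)} (S : GMap G) (l : List ((ℕ × (ℕ × Bool)) × (ℕ × (ℕ × Bool)))) : Prop :=
  ∀ x, x ∈ l ↔ ∃ p : Flag G, x = (code p, code (S.nxt p))

/-- Every closed walk of length at most six in the dual graph (it crosses the edges of the flags `p 0, ..., p (r - 1)`,
the edge of `p i` from the face of `p i` to the face of `side (p i)`, which is the face of `p (i + 1)`, indices modulo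
`r`) crosses every set `C` of edges of `G` with an even number of edges at every vertex an even number of times. -/
def ShortWalksNull {n : ℕ} {G : SimpleGraph (Fin n)} (S : GMap G) : Prop :=
  ∀ (r : ℕ) [NeZero r], r ≤ 6 → ∀ p : Fin r → Flag G, (∀ i, S.face (side (p i)) = S.face (p (i + 1))) →
    ∀ C : Set (Sym2 (Fin n)), C ⊆ G.edgeSet → (∀ v, Even {e | e ∈ C ∧ v ∈ e}.ncard) →
      Even {i | (p i).1.edge ∈ C}.ncard

/-- For every `k` there is a polynomial time function computing the orientable genus of all connected graphs of maximum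
degree at most three given with an embedding of Euler genus `k` all whose short closed dual walks are null-homologous
modulo two. -/
theorem result (k : ℕ) : ∃ f : List ((ℕ × (ℕ × Bool)) × (ℕ × (ℕ × Bool))) → ℕ, IsPolyTime f ∧
    ∀ (n : ℕ) (G : SimpleGraph (Fin n)), G.Connected → 2 ≤ n → (∀ v, (G.neighborSet v).ncard ≤ 3) →
      ∀ S : GMap G, S.eg = k → ShortWalksNull S → ∀ l, Describes S l →
        f l = orientableGenus G ∧ ∃ M : GMap G, M.Orientable ∧ M.eg = 2 * (orientableGenus G : ℤ) := by
  classical
  obtain ⟨f, hf, h⟩ := Pool.Agent.BEO.main k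
  refine ⟨f, hf, ?_⟩
  intro n G hG hn h3 S hk hS l hl
  have hnt : Nontrivial (Fin n) := Fin.nontrivial_iff_two_le.2 hn
  refine ⟨h n G hG hn ?_ S hk (Pool.Agent.BEO.wide_of_sets S hS) l hl, ?_⟩
  · intro v
    refine le_trans (le_of_eq ?_) (h3 v)
    unfold Pool.Agent.BEO.nb
    rw [← Set.ncard_coe_finset]
    congr 1
    ext u
    simp [SimpleGraph.mem_neighborSet]
  · have hnat : ∀ M : GMap G, M.Orientable → ∃ g : ℕ, M.eg = 2 * (g : ℤ) := by
      intro M hM
      obtain ⟨g, hg⟩ := even_eg hG M hM
      have h0 : ((([] : List (M.Face × M.Face)).length : ℕ) : ℤ) ≤ M.eg :=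
        tri_bound M M hG [] (by intro p hp; simp at hp) List.Pairwise.nil
      have h1 : (0 : ℤ) ≤ M.eg := h0
      refine ⟨g.toNat, ?_⟩
      omega
    obtain ⟨T, hT, -⟩ := upper S
    obtain ⟨g, hg⟩ := hnat T hT
    have hmem : orientableGenus G ∈ {g : ℕ | ∃ M : GMap G, M.Orientable ∧ M.eg = 2 * (g : ℤ)} :=
      Nat.sInf_mem ⟨g, T, hT, hg⟩
    exact hmem

end Pool.Agent.Results.MP_6d4ab8_lc.ExactSubcubic
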